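import Mathlib

/-!
# Total domination versus matching number with two vertices outside triangles

The graph on 11 vertices with edges `02, 03, 04, 0A, 19, 1A, 27, 2A, 34, 35, 45, 67, 68, 78`
(where `A = 10`) is connected, all its vertices but `1, 9` lie in triangles, its total domination
number is 6 and its matching number is at most 5.
-/

set_option autoImplicit false

namespace Pool.Agent.Results.MP_7cc4cd_co.TwoExceptions

variable {V : Type} [Fintype V] [DecidableEq V]

/-- The vertex `v` lies in a triangle. -/
def InTriangle (G : SimpleGraph V) (v : V) : Prop :=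
  ∃ a b : V, G.Adj v a ∧ G.Adj v b ∧ G.Adj a b

/-- The class `𝒢_k`: every connected component has at least four vertices and all but at most `k`
vertices lie in a triangle. -/
def InClass (k : ℕ) (G : SimpleGraph V) : Prop :=
  (∀ c : G.ConnectedComponent, 4 ≤ c.supp.ncard) ∧ {v : V | ¬ InTriangle G v}.ncard ≤ k

/-- Every vertex has a neighbour in `S`. -/
def TotalDominating (G : SimpleGraph V) (S : Finset V) : Prop := ∀ v, ∃ u ∈ S, G.Adj v u

/-- The total domination number. -/
noncomputable def gammaT (G : SimpleGraph V) : ℕ :=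
  sInf {k | ∃ S : Finset V, TotalDominating G S ∧ S.card = k}

/-- `M` is a matching: a set of pairwise disjoint edges. -/
def IsMatching (G : SimpleGraph V) (M : Finset (Sym2 V)) : Prop :=
  (∀ e ∈ M, e ∈ G.edgeSet) ∧ ∀ e ∈ M, ∀ f ∈ M, ∀ v, v ∈ e → v ∈ f → e = f

/-- The matching number. -/
noncomputable def matchingNum (G : SimpleGraph V) : ℕ :=
  sSup {k | ∃ M : Finset (Sym2 V), IsMatching G M ∧ M.card = k}

theorem two_mul_card_le {G : SimpleGraph V} {M : Finset (Sym2 V)} (hM : IsMatching G M) :
    2 * M.card ≤ Fintype.card V := by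
  have h : (M.biUnion fun e => e.toFinset).card = ∑ e ∈ M, e.toFinset.card := by
    refine Finset.card_biUnion ?_
    intro e he f hf hne
    rw [Function.onFun, Finset.disjoint_left]
    intro v h1 h2
    rw [Sym2.mem_toFinset] at h1 h2
    exact hne (hM.2 e he f hf v h1 h2)
  have h2 : ∀ e ∈ M, e.toFinset.card = 2 := by
    intro e he
    refine Sym2.card_toFinset_of_not_isDiag e ?_
    exact G.not_isDiag_of_mem_edgeSet (hM.1 e he)
  rw [Finset.sum_congr rfl h2, Finset.sum_const, smul_eq_mul] at h
  have h3 := Finset.card_le_univ (M.biUnion fun e => e.toFinset)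
  omega

theorem matchingNum_le {G : SimpleGraph V} {k : ℕ} (h : Fintype.card V ≤ 2 * k + 1) :
    matchingNum G ≤ k := by
  refine csSup_le ⟨0, ∅, ⟨by simp, by simp⟩, rfl⟩ ?_
  rintro l ⟨M, hM, rfl⟩
  have := two_mul_card_le hM
  omega

/-- the neighbours -/
def nb : Fin 11 → List (Fin 11) := ![[2, 3, 4, 10], [9, 10], [0, 7, 10], [0, 4, 5], [0, 3, 5],
  [3, 4], [7, 8], [2, 6, 8], [6, 7], [1], [0, 1, 2]]

/-- the graph -/
def H : SimpleGraph (Fin 11) where
  Adj i j := j ∈ nb i
  symm := ⟨by decide⟩
  loopless := ⟨by decide⟩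

instance : DecidableRel H.Adj := fun i j => inferInstanceAs (Decidable (j ∈ nb i))

theorem connected_H : H.Connected := by
  have h : ∀ v, H.Reachable v 0 := by
    have e2 : H.Reachable 2 0 := SimpleGraph.Adj.reachable (by decide)
    have e3 : H.Reachable 3 0 := SimpleGraph.Adj.reachable (by decide)
    have e4 : H.Reachable 4 0 := SimpleGraph.Adj.reachable (by decide)
    have e10 : H.Reachable 10 0 := SimpleGraph.Adj.reachable (by decide)
    have e1 : H.Reachable 1 0 :=
      (SimpleGraph.Adj.reachable (show H.Adj 1 10 by decide)).trans e10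
    have e9 : H.Reachable 9 0 :=
      (SimpleGraph.Adj.reachable (show H.Adj 9 1 by decide)).trans e1
    have e5 : H.Reachable 5 0 :=
      (SimpleGraph.Adj.reachable (show H.Adj 5 3 by decide)).trans e3
    have e7 : H.Reachable 7 0 :=
      (SimpleGraph.Adj.reachable (show H.Adj 7 2 by decide)).trans e2
    have e6 : H.Reachable 6 0 :=
      (SimpleGraph.Adj.reachable (show H.Adj 6 7 by decide)).trans e7
    have e8 : H.Reachable 8 0 :=
      (SimpleGraph.Adj.reachable (show H.Adj 8 7 by decide)).trans e7
    intro v
    fin_cases v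
    · exact SimpleGraph.Reachable.refl _
    · exact e1
    · exact e2
    · exact e3
    · exact e4
    · exact e5
    · exact e6
    · exact e7
    · exact e8
    · exact e9
    · exact e10
  exact ⟨fun u v => (h u).trans (h v).symm⟩

/-- Every total dominating set has at least six elements: the vertex `9` forces `1`, the vertex
`1` forces `9` or `10`, the vertices `6`, `8` force two elements among `6, 7, 8`, and `5` and the
others force two more. -/
theorem six_le : ∀ S : Finset (Fin 11), (∀ v, ∃ u ∈ S, H.Adj v u) → 6 ≤ S.card := by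
  intro S hS
  have key : ∀ b : Fin 11 → Bool, (∀ v, ∃ u ∈ nb v, b u = true) →
      6 ≤ ((List.finRange 11).filter (fun u => b u)).length := by
    have : ∀ b0 b1 b2 b3 b4 b5 b6 b7 b8 b9 b10 : Bool,
        (∀ v, ∃ u ∈ nb v, (![b0, b1, b2, b3, b4, b5, b6, b7, b8, b9, b10] : Fin 11 → Bool) u
          = true) → 6 ≤ ((List.finRange 11).filter
            (fun u => (![b0, b1, b2, b3, b4, b5, b6, b7, b8, b9, b10] : Fin 11 → Bool) u)).length := by
      decide +kernel
    intro b hb
    have h0 : b = ![b 0, b 1, b 2, b 3, b 4, b 5, b 6, b 7, b 8, b 9, b 10] := by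
      funext i
      fin_cases i <;> rfl
    rw [h0] at hb ⊢
    exact this _ _ _ _ _ _ _ _ _ _ _ hb
  have h1 := key (fun u => decide (u ∈ S)) (fun v => by
    obtain ⟨u, hu, huv⟩ := hS v
    exact ⟨u, huv, by simpa using hu⟩)
  have h2 : ((List.finRange 11).filter (fun u => decide (u ∈ S))).toFinset = S := by
    ext u
    simp
  have h3 : ((List.finRange 11).filter (fun u => decide (u ∈ S))).length = S.card := by
    conv_rhs => rw [← h2]
    rw [List.toFinset_card_of_nodup]
    exact (List.nodup_finRange 11).filter _
  omega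

/-- **Q1 has a negative answer**: there is a connected graph in `𝒢_2` with `γ_t > α'`. -/
theorem result : ∃ (V : Type) (_ : Fintype V) (_ : DecidableEq V) (G : SimpleGraph V),
    G.Connected ∧ InClass 2 G ∧ matchingNum G < gammaT G := by
  refine ⟨Fin 11, inferInstance, inferInstance, H, connected_H, ⟨?_, ?_⟩, ?_⟩
  · intro c
    have hc : c.supp = Set.univ := by
      rw [Set.eq_univ_iff_forall]
      intro v
      rw [SimpleGraph.ConnectedComponent.mem_supp_iff]
      induction c using SimpleGraph.ConnectedComponent.ind with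
      | _ w => exact SimpleGraph.ConnectedComponent.sound (connected_H v w)
    rw [hc, Set.ncard_univ]
    simp
  · have h : {v : Fin 11 | ¬ InTriangle H v} ⊆ (({1, 9} : Finset (Fin 11)) : Set (Fin 11)) := by
      have h1 : ∀ v : Fin 11, v ∉ ({1, 9} : Finset (Fin 11)) →
          ∃ a b : Fin 11, H.Adj v a ∧ H.Adj v b ∧ H.Adj a b := by decide
      intro v hv
      by_contra hcon
      exact hv (h1 v hcon)
    refine (Set.ncard_le_ncard h (Finset.finite_toSet _)).trans ?_
    rw [Set.ncard_coe_finset]
    decide
  · have h1 : matchingNum H ≤ 5 := matchingNum_le (by simp)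
    have h2 : 6 ≤ gammaT H := by
      refine le_csInf ⟨11, Finset.univ, ?_, by simp⟩ ?_
      · have : ∀ v : Fin 11, ∃ u ∈ (Finset.univ : Finset (Fin 11)), H.Adj v u := by decide
        exact this
      · rintro k ⟨S, hS, rfl⟩
        exact six_le S hS
    omega

end Pool.Agent.Results.MP_7cc4cd_co.TwoExceptions
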